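import Pool.Agent.Helper11K9.PR.Res

/-!
# Images of products of curves: general type or a covering by curves of genus at most one

Let `V = C_1 × ... × C_n` be a product of smooth projective curves over the complex numbers (`n` is
arbitrary), of genera `g_i` and gonalities `γ_i`. Let `V ⇢ W` be a dominant rational map of degree
`r` to a smooth projective variety `W` of dimension `n`. Assume

* `g_i ≥ r` and `g_i ≥ 2` for all `i`;
* for all `i ≠ j` one of the two curves, say `C_i`, is not hyperelliptic and `g_i ≥ r + 2`;
* `r` is prime; or every curve `C_i` descends or generates: the projection `V → C_i` factors through
  `W`, or the fibres of `V ⇢ W` are mapped injectively to `C_i` (for example, `V ⇢ W` does not factor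
  through a third variety); or, with the smallest prime factor `ℓ` of `r`, for all `i ≠ j`:
  `2 r < ℓ γ_j` or `2 r < γ_i + ℓ (γ_j - 2)`.

Nothing else is assumed about the map (it need not be a quotient by a group, its ramification is
arbitrary) or about `W`; in particular `W` may have no holomorphic `1`-forms.

Then `W` is of general type, or it is covered by curves of genus at most one. (If `r` is prime, or every
curve descends or generates, then in the second case all curves but one descend: `W` is fibred over
the product of `n - 1` of the curves.)

For the Green-Griffiths-Lang conjecture this means: if `W` is not of general type then the rational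
and elliptic curves in `W` are dense, so that each of the special sets `Sp_sab (W)`, `Sp_h (W)`,
`Sp_alg (W)`, `Sp_p (W)` is all of `W`. In other words, each of the conditions (2), (3), (4), (5)
implies (1) for `W`.

The second condition is needed: if `C` is a curve of genus two and `W` its Jacobian, dominated by
`V = C × C` with `r = 2`, then the first and the third condition hold but `κ (W) = 0`, and a simple
abelian surface is not covered by curves of genus at most one. Some condition like the third one is
needed: if `C_1 → C` and `C_2 → C` are double coverings with many branch points then the first and the
second condition hold for `C_1 × C_2 → W`, which has degree `8`, but not the conclusion. (These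
examples are not formalised.)

Proof. Let `K ⊇ L` be the function fields of `V` and `W`, and `F_i` the one of `C_i`. The canonical
forms on `W` which we use are the traces of the products of regular differentials of the curves.

(1) If all these traces vanish then `W` is uniruled: by Clifford's theorem the regular differentials of
a curve have rank at least `s / 2` at `s` distinct points, and more than `s / 2` if the curve is not
hyperelliptic; see also `MP_23b606_ag.ImagesAndGenera` of this team.

(2) Let `N` be the field of the ratios of the traces. Two curves `C_p`, `C_q` cannot both be
transcendental over `N`: otherwise consider the embeddings of `L(F_p, F_q)` over `L`, together with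
their conjugates by an automorphism over `N` which moves everything transcendental; they satisfy a
linear relation on the products of differentials of `C_p` and `C_q`. As they are distinct on `F_p` and on
`F_q`, Clifford's theorem for twice as many points gives a contradiction if `F_p` and `F_q` generate
the same field; otherwise we remove embeddings of `F_q`, each with a whole fibre.

(3) An easy addition argument without resolutions: let `M ⊇ L` be generated by elements which are
algebraic over the field of the ratios of the pluricanonical forms of `W`. Then the ratio of a regular
form on `M` and one on `L` is algebraic over this field. (Traces of powers of the ratio, multiplied by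
powers of a pluricanonical form of `W` which vanishes at the poles and the branch divisor of a
generator.) So if `W` is not of general type and all curves but `C_p` are algebraic over this field
then the traces from `K` to `M` of the regular differentials of `C_p` are proportional over the
function field of the other curves, where `M` is generated by `L` and the other curves. As they
generate the regular differentials of the generic fibre of the fibration of `M` over the product of
the other curves, this fibre has genus at most one.

The function-field language of the starting repository is used. A canonical form (`IsPluri 1`) on a
variety of dimension `n` is a function of `n` rational vector fields; it is regular at the prime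
divisor `P` (`Place`, `Divisorial`, `RegAt`) if its value on vector fields which are regular at `P`
is regular at `P`. `KodGe ℂ L n (fun _ => False) n` says that `κ ≥ n` for the smooth projective
varieties of dimension `n` with the function field `L`.
-/

set_option autoImplicit false
set_option linter.overlappingInstances false

open FF Pool.Agent.W602.GT
open Pool.Agent.Helper11K9.PR (regForms)

namespace Pool.Agent.Results.MP_160ed4_ag.ImagesOfProductsOfCurves

/-- `K` is the function field of a product of `n` curves over `ℂ`, and the `F i` are the function
fields of the curves (embedded in `K` by the projections): they are finitely generated of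
transcendence degree one, they generate `K`, and the transcendence degree of `K` is `n`. -/
structure IsProductOfCurves {K : Type} [Field K] [Algebra ℂ K] {n : ℕ}
    (F : Fin n → IntermediateField ℂ K) : Prop where
  curve : ∀ i, IsFF ℂ (F i)
  gen : ⨆ i, F i = ⊤
  dim : Algebra.trdeg ℂ K = n

/-- The gonality of a curve with the function field `F`: the least degree of a nonconstant rational
function `t`, that is, of `F` over `ℂ(t)`. -/
noncomputable def gonality (F : Type) [Field F] [Algebra ℂ F] : ℕ :=
  sInf {d : ℕ | ∃ t : F, Transcendental ℂ t ∧
    d = Module.finrank (IntermediateField.adjoin ℂ {t}) F}

/-- The genus of a curve over `k` with the function field `F`: the dimension of the space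
`regForms k F` of regular differential forms. -/
noncomputable def genus (k F : Type) [Field k] [Field F] [Algebra k F] : ℕ :=
  Module.finrank k (regForms k F)

/-- The definition of `regForms`: a differential form `ω` on a curve with the function field `F`, an
`F`-linear map from the rational vector fields (the derivations of `F` over `k`) to `F`, is regular if
`ω δ` has no pole at `P` for all points (places) `P` and all vector fields `δ` regular at `P`. -/
theorem mem_regForms {k F : Type} [Field k] [Field F] [Algebra k F]
    {ω : Derivation k F F →ₗ[F] F} : ω ∈ regForms k F ↔
      ∀ (P : Place k F) (δ : Derivation k F F), (∀ f, P.Reg f → P.Reg (δ f)) → P.Reg (ω δ) := Iff.rfl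

/-- Every curve descends (its function field `F i` is contained in `L`) or generates (`F i` generates
`K` over `L`). -/
def DescendsOrGenerates {K : Type} [Field K] [Algebra ℂ K] {n : ℕ}
    (F : Fin n → IntermediateField ℂ K) (L : IntermediateField ℂ K) : Prop :=
  ∀ i, F i ≤ L ∨ IntermediateField.adjoin L (F i : Set K) = ⊤

/-- The variety of dimension `n` with the function field `L` is covered by curves of genus at most
one: `L` embeds in the function field `Φ` of a curve of genus at most one over an algebraically
closed field `Λ` of transcendence degree `n - 1` over `ℂ`. -/
def CoveredByLowGenus (L : Type) [Field L] [Algebra ℂ L] (n : ℕ) : Prop :=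
  ∃ (Λ Φ : Type) (_ : Field Λ) (_ : Field Φ) (_ : Algebra ℂ Λ) (_ : Algebra ℂ Φ)
    (_ : Algebra Λ Φ) (_ : IsScalarTower ℂ Λ Φ), IsAlgClosed Λ ∧ Algebra.trdeg ℂ Λ + 1 = n ∧
    IsFF Λ Φ ∧ genus Λ Φ ≤ 1 ∧ Nonempty (L →ₐ[ℂ] Φ)

/-- The smooth projective varieties of dimension `n` with the function field `L` are of general type:
their Kodaira dimension is at least `n`. -/
def GeneralType (L : Type) [Field L] [Algebra ℂ L] (n : ℕ) : Prop :=
  KodGe ℂ L n (fun _ => False) n

/-- **Images of products of curves of large genus.** Let `K` be the function field of a product of
`n` curves with the function fields `F i` and let `L` be a subfield of finite index `r` (the function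
field of a smooth projective variety `W` dominated by the product, with degree `r = [K : L]`). Assume
that all genera are at least `r` and at least two, that for all `i ≠ j` one of the two curves has
gonality at least three and genus at least `r + 2`, and that `r` is prime, or every curve descends or
generates, or, with the smallest prime factor `ℓ` of `r`, for all `i ≠ j`
`2 * r < ℓ * gonality (F j)` or `2 * r < gonality (F i) + ℓ * (gonality (F j) - 2)`.
Then `W` is of general type, or it is covered by curves of genus at most one; in the second case all
curves but one descend, if `r` is prime or every curve descends or generates. -/
theorem result {n : ℕ} {K : Type} [Field K] [Algebra ℂ K] (F : Fin n → IntermediateField ℂ K)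
    (hF : IsProductOfCurves F) (L : IntermediateField ℂ K) [FiniteDimensional L K] (r : ℕ)
    (hr : Module.finrank L K = r) (hgenus : ∀ i, r ≤ genus ℂ (F i) ∧ 2 ≤ genus ℂ (F i))
    (hpair : ∀ i j, i ≠ j → (3 ≤ gonality (F i) ∧ r + 2 ≤ genus ℂ (F i)) ∨
      (3 ≤ gonality (F j) ∧ r + 2 ≤ genus ℂ (F j)))
    (hmap : r.Prime ∨ DescendsOrGenerates F L ∨
      ∀ i j, i ≠ j → 2 * r < r.minFac * gonality (F j) ∨
        2 * r < gonality (F i) + r.minFac * (gonality (F j) - 2)) :
    GeneralType L n ∨ (CoveredByLowGenus L n ∧
      (r.Prime ∨ DescendsOrGenerates F L → ∃ p, ∀ j, j ≠ p → F j ≤ L)) := by
  have hcurve := hF.curve
  obtain ⟨-, -, h3, h4⟩ := Pool.Agent.Helper11K9.PR.final F hF.gen hF.dim L hr hgenus hpair hmap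
  rcases h3 with h3 | h3
  · exact Or.inl h3
  · by_cases h5 : GeneralType L n
    · exact Or.inl h5
    · exact Or.inr ⟨h3, fun h6 => (h4 h6).resolve_left h5⟩

end Pool.Agent.Results.MP_160ed4_ag.ImagesOfProductsOfCurves
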